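import Pool.Agent.T9h88.IO.Basic

/-!
# Derivations for `AllS` and `comb`
-/

set_option autoImplicit false

namespace Pool.Agent.T9h46.IO

open Pool.Agent.T9h88.IO
open Pool.Agent.T9h88.IO.Tree (nil node)

theorem size_nil : (nil : T9h88.IO.Tree).size = 0 := rfl

theorem size_node (a b : T9h88.IO.Tree) : (node a b).size = a.size + b.size + 1 := rfl

theorem size_comb (n : ℕ) : (comb n).size = n := by
  induction n with
  | zero => rfl
  | succ n ih => rw [comb, size_node, ih, size_nil]; omega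

/-- the number of inner nodes that the frames add -/
def wf : T9h88.IO.Tree → ℕ
  | nil => 0
  | node nil k => 1 + wf k
  | node (node a _) k => 1 + a.size + wf k

/-- the termination measure -/
def wt : T9h88.IO.Tree → ℕ
  | nil => 0
  | node nil k => 2 + wt k
  | node (node _ _) k => 1 + wt k

/-- the frames that occur -/
def Fr : T9h88.IO.Tree → Prop
  | nil => True
  | node nil k => Fr k
  | node (node _ c) k => c = nil ∧ Fr k

theorem Fr.size_le : ∀ {k : T9h88.IO.Tree}, Fr k → k.size ≤ 2 * wf k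
  | nil, _ => by simp [size_nil]
  | node nil k, h => by
    have h1 : k.size ≤ 2 * wf k := Fr.size_le (k := k) (by simpa only [Fr] using h)
    simp only [size_node, size_nil, wf]; omega
  | node (node a c) k, h => by
    simp only [Fr] at h
    obtain ⟨rfl, h⟩ := h
    have h1 : k.size ≤ 2 * wf k := Fr.size_le h
    simp only [size_node, size_nil, wf]; omega

section

variable {Cs : List Cl} {N : List At} {ν : T9h88.IO.Tree → ℕ} {M K : ℕ}

theorem dnil (hX : Ctx N ν M K) : Der Cs N N.length (nl (ν nil)) := .base hX.nil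

theorem dnode (hX : Ctx N ν M K) {a b : T9h88.IO.Tree} (h : (node a b).size ≤ K) :
    Der Cs N N.length (nd (ν a) (ν b) (ν (node a b))) := .base (hX.node a b h)

theorem names (hX : Ctx N ν M K) : ∀ l : List T9h88.IO.Tree, (∀ t ∈ l, t.size ≤ K) →
    ∀ y ∈ l.map ν, y < N.length := by
  intro l h y hy
  obtain ⟨t, ht, rfl⟩ := List.mem_map.1 hy
  exact hX.lt t (h t ht)

theorem pos (hX : Ctx N ν M K) : 0 < N.length := by have := hX.numlt; omega

theorem memAll {c : Cl} (hC : ∀ c ∈ clTree ++ clAll, c ∈ Cs) (h : c ∈ clAll) : c ∈ Cs :=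
  hC c (List.mem_append_right _ h)

theorem der_all0 (hC : ∀ c ∈ clTree ++ clAll, c ∈ Cs) (hX : Ctx N ν M K) {g k : T9h88.IO.Tree}
    (hg : g.size ≤ K) (hk : k.size ≤ K)
    (h : Der Cs N N.length (.op iDone (ν g) (ν k) (ν nil) (ν nil))) :
    Der Cs N N.length (o3 iAll (ν g) (ν k) (ν nil)) :=
  Der.step' ⟨[nl 2, nl 3, .op iDone 0 1 3 2], o3 iAll 0 1 2⟩ 0 ([g, k, nil, nil].map ν)
    (memAll hC (by simp [clAll])) (pos hX)
    (names hX _ (by simp only [List.forall_mem_cons, size_nil]; simp [hg, hk]))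
    (List.forall_mem_cons.2 ⟨dnil hX, List.forall_mem_cons.2 ⟨dnil hX,
      List.forall_mem_cons.2 ⟨h, List.forall_mem_nil _⟩⟩⟩)

theorem der_all1 (hC : ∀ c ∈ clTree ++ clAll, c ∈ Cs) (hX : Ctx N ν M K) {g k : T9h88.IO.Tree}
    {n : ℕ} (hg : g.size ≤ K) (hk : (node nil k).size ≤ K) (hn : n + 1 ≤ K)
    (h1 : Der Cs N N.length (.op iDone (ν g) (ν k) (ν nil) (ν (comb (n + 1)))))
    (h2 : Der Cs N N.length (o3 iAll (ν g) (ν (node nil k)) (ν (comb n)))) :
    Der Cs N N.length (o3 iAll (ν g) (ν k) (ν (comb (n + 1)))) :=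
  Der.step' ⟨[nl 3, nd 3 4 5, .op iDone 0 1 3 5, nd 3 1 6, o3 iAll 0 6 4], o3 iAll 0 1 5⟩ 0
    ([g, k, nil, nil, comb n, comb (n + 1), node nil k].map ν)
    (memAll hC (by simp [clAll])) (pos hX)
    (names hX _ (by
      simp only [List.forall_mem_cons, size_nil, size_comb]
      simp only [size_node, size_nil] at hk ⊢
      simp [hg]; omega))
    (List.forall_mem_cons.2 ⟨dnil hX, List.forall_mem_cons.2 ⟨dnode hX (a := nil) (b := comb n)
      (by simp only [size_node, size_nil, size_comb]; omega),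
      List.forall_mem_cons.2 ⟨h1, List.forall_mem_cons.2 ⟨dnode hX hk,
      List.forall_mem_cons.2 ⟨h2, List.forall_mem_nil _⟩⟩⟩⟩⟩)

theorem der_done0 (hC : ∀ c ∈ clTree ++ clAll, c ∈ Cs) (hX : Ctx N ν M K)
    {g t a b p : T9h88.IO.Tree} {n : ℕ} (hg : g.size ≤ K) (ht : t.size ≤ K) (hn : n ≤ K)
    (hr : runT g t = node (node a b) p) (hs : (runT g t).size ≤ K)
    (h : Der Cs N N.length (o3 iRun (ν g) (ν t) (ν (runT g t)))) :
    Der Cs N N.length (.op iDone (ν g) (ν nil) (ν t) (ν (comb n))) := by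
  rw [hr] at h hs
  have hs' := hs
  simp only [size_node] at hs'
  exact Der.step' ⟨[nl 1, o3 iRun 0 2 4, nd 5 6 4, nd 7 8 5], .op iDone 0 1 2 3⟩ 0
    ([g, nil, t, comb n, node (node a b) p, node a b, p, a, b].map ν)
    (memAll hC (by simp [clAll])) (pos hX)
    (names hX _ (by
      simp only [List.forall_mem_cons, size_nil, size_comb, size_node]
      simp [hg, ht, hn]; omega))
    (List.forall_mem_cons.2 ⟨dnil hX, List.forall_mem_cons.2 ⟨h,
      List.forall_mem_cons.2 ⟨dnode hX hs, List.forall_mem_cons.2 ⟨dnode hX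
        (by simp only [size_node]; omega), List.forall_mem_nil _⟩⟩⟩⟩)

theorem der_done1 (hC : ∀ c ∈ clTree ++ clAll, c ∈ Cs) (hX : Ctx N ν M K)
    {g k t : T9h88.IO.Tree} {n : ℕ} (hg : g.size ≤ K)
    (hk : (node (node t nil) k).size ≤ K) (hn : n ≤ K)
    (h : Der Cs N N.length (o3 iAll (ν g) (ν (node (node t nil) k)) (ν (comb n)))) :
    Der Cs N N.length (.op iDone (ν g) (ν (node nil k)) (ν t) (ν (comb n))) := by
  have hk' := hk
  simp only [size_node, size_nil] at hk'
  exact Der.step' ⟨[nl 4, nd 4 5 1, nd 2 4 6, nd 6 5 7, o3 iAll 0 7 3], .op iDone 0 1 2 3⟩ 0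
    ([g, node nil k, t, comb n, nil, k, node t nil, node (node t nil) k].map ν)
    (memAll hC (by simp [clAll])) (pos hX)
    (names hX _ (by
      simp only [List.forall_mem_cons, size_nil, size_comb, size_node]
      simp [hg, hn]; omega))
    (List.forall_mem_cons.2 ⟨dnil hX, List.forall_mem_cons.2 ⟨dnode hX
        (by simp only [size_node, size_nil]; omega),
      List.forall_mem_cons.2 ⟨dnode hX (by simp only [size_node, size_nil]; omega),
        List.forall_mem_cons.2 ⟨dnode hX hk, List.forall_mem_cons.2 ⟨h,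
          List.forall_mem_nil _⟩⟩⟩⟩⟩)

theorem der_done2 (hC : ∀ c ∈ clTree ++ clAll, c ∈ Cs) (hX : Ctx N ν M K)
    {g a c k t : T9h88.IO.Tree} {n : ℕ} (hg : g.size ≤ K)
    (hk : (node (node a c) k).size ≤ K) (ht : (node a t).size ≤ K) (hn : n ≤ K)
    (h : Der Cs N N.length (.op iDone (ν g) (ν k) (ν (node a t)) (ν (comb n)))) :
    Der Cs N N.length (.op iDone (ν g) (ν (node (node a c) k)) (ν t) (ν (comb n))) := by
  have hk' := hk
  have ht' := ht
  simp only [size_node] at hk' ht'
  exact Der.step' ⟨[nd 4 5 6, nd 6 7 1, nd 4 2 8, .op iDone 0 7 8 3], .op iDone 0 1 2 3⟩ 0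
    ([g, node (node a c) k, t, comb n, a, c, node a c, k, node a t].map ν)
    (memAll hC (by simp [clAll])) (pos hX)
    (names hX _ (by
      simp only [List.forall_mem_cons, size_comb, size_node]
      simp [hg, hn]; omega))
    (List.forall_mem_cons.2 ⟨dnode hX (by simp only [size_node]; omega),
      List.forall_mem_cons.2 ⟨dnode hX hk, List.forall_mem_cons.2 ⟨dnode hX ht,
        List.forall_mem_cons.2 ⟨h, List.forall_mem_nil _⟩⟩⟩⟩)

theorem der_inner (hC : ∀ c ∈ clTree ++ clAll, c ∈ Cs) (hX : Ctx N ν M K) {g : T9h88.IO.Tree}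
    {n₀ : ℕ} (hg : g.size ≤ K) (hK : 2 * n₀ ≤ K)
    (hok : ∀ l : T9h88.IO.Tree, l.size ≤ n₀ → Ok0 g l)
    (hrun : ∀ l : T9h88.IO.Tree, l.size ≤ n₀ → (runT g l).size ≤ K ∧
      Der Cs N N.length (o3 iRun (ν g) (ν l) (ν (runT g l)))) (n : ℕ)
    (IH : ∀ n', n = n' + 1 → ∀ k : T9h88.IO.Tree, Fr k → wf k + n' ≤ n₀ →
      Der Cs N N.length (o3 iAll (ν g) (ν k) (ν (comb n')))) :
    ∀ m : ℕ, ∀ k : T9h88.IO.Tree, wt k < m → Fr k →
      (∀ t : T9h88.IO.Tree, wf k + t.size + n ≤ n₀ →
        Der Cs N N.length (.op iDone (ν g) (ν k) (ν t) (ν (comb n)))) ∧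
      (wf k + n ≤ n₀ → Der Cs N N.length (o3 iAll (ν g) (ν k) (ν (comb n)))) := by
  intro m
  induction m with
  | zero => intro k hk; omega
  | succ m ih =>
    intro k hk hF
    have hkK := hF.size_le
    have hD : ∀ t : T9h88.IO.Tree, wf k + t.size + n ≤ n₀ →
        Der Cs N N.length (.op iDone (ν g) (ν k) (ν t) (ν (comb n))) := by
      intro t ht
      match k, hk, hF, ht, hkK with
      | nil, _, _, ht, _ =>
        obtain ⟨a, b, p, hr⟩ := hok t (by omega)
        obtain ⟨h1, h2⟩ := hrun t (by omega)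
        exact der_done0 hC hX hg (by omega) (by omega) hr h1 h2
      | node nil k, hk, hF, ht, hkK =>
        simp only [wt, wf] at hk ht
        simp only [Fr] at hF
        have h1 := hF.size_le
        refine der_done1 hC hX hg (by simp only [size_node, size_nil]; omega) (by omega) ?_
        refine (ih (node (node t nil) k) (by simp only [wt]; omega)
          (by simp only [Fr]; exact ⟨trivial, hF⟩)).2 ?_
        simp only [wf]; omega
      | node (node a c) k, hk, hF, ht, hkK =>
        simp only [wt, wf] at hk ht hkK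
        simp only [Fr] at hF
        refine der_done2 hC hX hg (by omega) (by simp only [size_node]; omega) (by omega) ?_
        refine (ih k (by omega) hF.2).1 _ ?_
        simp only [size_node]; omega
    refine ⟨hD, fun h => ?_⟩
    rcases Nat.eq_zero_or_pos n with rfl | hn
    · exact der_all0 hC hX hg (by omega) (hD nil (by simp only [size_nil]; omega))
    · obtain ⟨n', rfl⟩ := Nat.exists_eq_add_of_lt hn
      rw [Nat.zero_add] at h hD ⊢
      refine der_all1 hC hX hg (by simp only [size_node, size_nil]; omega) (by omega)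
        (hD nil (by simp only [size_nil]; omega)) ?_
      exact IH n' (by omega) _ (by simp only [Fr]; exact hF) (by simp only [wf]; omega)

theorem der_main (hC : ∀ c ∈ clTree ++ clAll, c ∈ Cs) (hX : Ctx N ν M K) {g : T9h88.IO.Tree}
    {n₀ : ℕ} (hg : g.size ≤ K) (hK : 2 * n₀ ≤ K)
    (hok : ∀ l : T9h88.IO.Tree, l.size ≤ n₀ → Ok0 g l)
    (hrun : ∀ l : T9h88.IO.Tree, l.size ≤ n₀ → (runT g l).size ≤ K ∧
      Der Cs N N.length (o3 iRun (ν g) (ν l) (ν (runT g l)))) :
    ∀ n : ℕ, ∀ k : T9h88.IO.Tree, Fr k → wf k + n ≤ n₀ →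
      Der Cs N N.length (o3 iAll (ν g) (ν k) (ν (comb n))) := by
  intro n
  induction n with
  | zero =>
    intro k hk h
    exact (der_inner hC hX hg hK hok hrun 0 (fun n' h => by omega) _ k (Nat.lt_succ_self _) hk).2 h
  | succ n ih =>
    intro k hk h
    refine (der_inner hC hX hg hK hok hrun (n + 1) (fun n' h' => ?_) _ k
      (Nat.lt_succ_self _) hk).2 h
    obtain rfl : n = n' := by omega
    exact ih

theorem der_cmb (hC : ∀ c ∈ clTree ++ clAll, c ∈ Cs) (hX : Ctx N ν M K) :
    ∀ n : ℕ, n ≤ M → n ≤ K → Der Cs N N.length (o2 iCmb n (ν (comb n))) := by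
  intro n
  induction n with
  | zero =>
    intro _ _
    exact Der.step' ⟨[.zero 0, nl 1], o2 iCmb 0 1⟩ 0 [0, ν nil]
      (memAll hC (by simp [clAll])) (pos hX)
      (by simpa using ⟨pos hX, hX.lt nil (by simp [size_nil])⟩)
      (List.forall_mem_cons.2 ⟨.base hX.zero, List.forall_mem_cons.2 ⟨dnil hX,
        List.forall_mem_nil _⟩⟩)
  | succ n ih =>
    intro h1 h2
    have h3 := hX.numlt
    have h4 : n < N.length := by omega
    have h5 : n + 1 < N.length := by omega
    have h6 := hX.lt nil (by simp [size_nil])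
    have h7 := hX.lt (comb n) (by rw [size_comb]; omega)
    have h8 := hX.lt (comb (n + 1)) (by rw [size_comb]; omega)
    exact Der.step' ⟨[o2 iCmb 0 1, .succ 0 2, nl 3, nd 3 1 4], o2 iCmb 2 4⟩ 0
      [n, ν (comb n), n + 1, ν nil, ν (comb (n + 1))]
      (memAll hC (by simp [clAll])) (pos hX)
      (by simpa using ⟨h4, h7, h5, h6, h8⟩)
      (List.forall_mem_cons.2 ⟨ih (by omega) (by omega), List.forall_mem_cons.2
        ⟨.base (hX.succ n (by omega)), List.forall_mem_cons.2 ⟨dnil hX,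
        List.forall_mem_cons.2 ⟨dnode hX (a := nil) (b := comb n)
        (by simp only [size_node, size_nil, size_comb]; omega), List.forall_mem_nil _⟩⟩⟩⟩)

end

/-- (S7) -/
theorem sAll : SAll := by
  rintro ⟨C, hR⟩
  refine ⟨C + 2, fun Cs N ν M K hC hX => ⟨?_, der_cmb hC hX⟩⟩
  intro g n hok hK
  have h1 : pb C (g.size + n) ≤ K := (pb_le (by omega) le_rfl).trans hK
  have h2 : (g.size + n + 2) ^ 2 ≤ K := by
    have : pb 2 (g.size + n) ≤ pb (C + 2) (g.size + n) := pb_le (by omega) le_rfl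
    exact this.trans hK
  have h3 : 2 * (g.size + n) ≤ K := by nlinarith
  refine der_main hC hX (by omega) (by omega) hok (fun l hl => ?_) n nil (by simp [Fr])
    (by simp [wf])
  exact hR Cs N ν M K (fun c hc => hC c (List.mem_append_left _ hc)) hX g l
    ((pb_le le_rfl (by omega)).trans h1)

end Pool.Agent.T9h46.IO
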