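import Pool.Agent.T9h88.IO.Basic

/-!
# Truth of the clauses for `AllS`, `DoneS`, `comb` and `NoRef`
-/

set_option autoImplicit false

namespace Pool.Agent.T9h46.IO

open Pool.Agent.TH672 (Fm Str upd num digits varStr LogK)
open Pool.Agent.TH636.BC
open Pool.Agent.T9h6.BC (sz cl)
open Pool.Agent.T9h88.IO
open Pool.Agent.T9h88.IO.Tree (nil node)

theorem comb_eq_nil {n : ℕ} (h : nil = comb n) : n = 0 := by
  cases n with
  | zero => rfl
  | succ n => exact absurd h (by simp [comb])

theorem node_eq_comb {a b : T9h88.IO.Tree} {n : ℕ} (h : node a b = comb n) :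
    ∃ m, n = m + 1 ∧ a = nil ∧ b = comb m := by
  cases n with
  | zero => exact absurd h (by simp [comb])
  | succ m =>
    rw [comb] at h
    injection h with h1 h2
    exact ⟨m, rfl, h1, h2⟩

theorem all_zero {g k : T9h88.IO.Tree} (h : DoneS g k nil 0) : AllS g k 0 := by
  intro t ht
  cases t with
  | nil => exact h
  | node a b => simp only [T9h88.IO.Tree.size] at ht; omega

theorem all_succ {g k : T9h88.IO.Tree} {n : ℕ} (h0 : DoneS g k nil (n + 1))
    (h : AllS g (node nil k) n) :
    AllS g k (n + 1) := by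
  intro t ht
  cases t with
  | nil => exact h0
  | node a b =>
    simp only [T9h88.IO.Tree.size] at ht ⊢
    have h1 := h a (by omega)
    rw [DoneS] at h1
    have h2 := h1 b (by omega)
    have e : n + 1 - (a.size + b.size + 1) = n - a.size - b.size := by omega
    rw [e]
    exact h2

theorem vAll : VAll := by
  intro P σ κ c hc v hv
  simp only [clAll, List.mem_cons, List.not_mem_nil, or_false] at hc
  rcases hc with rfl | rfl | rfl | rfl | rfl | rfl | rfl | rfl
  · simp only [List.forall_mem_cons, List.not_mem_nil, false_implies, implies_true, and_true] at hv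
    obtain ⟨h1, h2, h3⟩ := hv
    intro n hn
    have h1' : dec (v 2) = .nil := h1
    have h2' : dec (v 3) = .nil := h2
    have h3' : ∀ n, dec (v 2) = comb n → DoneS (dec (v 0)) (dec (v 1)) (dec (v 3)) n := h3
    have hn' : dec (v 2) = comb n := hn
    have h4 := h3' n hn'
    rw [h1'] at hn'
    obtain rfl := comb_eq_nil hn'
    rw [h2'] at h4
    exact all_zero h4
  · simp only [List.forall_mem_cons, List.not_mem_nil, false_implies, implies_true, and_true] at hv
    obtain ⟨h1, h2, h3, h4, h5⟩ := hv
    intro n hn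
    have h1' : dec (v 3) = .nil := h1
    have h2' : dec (v 5) = .node (dec (v 3)) (dec (v 4)) := h2
    have h3' : ∀ n, dec (v 5) = comb n → DoneS (dec (v 0)) (dec (v 1)) (dec (v 3)) n := h3
    have h4' : dec (v 6) = .node (dec (v 3)) (dec (v 1)) := h4
    have h5' : ∀ n, dec (v 4) = comb n → AllS (dec (v 0)) (dec (v 6)) n := h5
    have hn' : dec (v 5) = comb n := hn
    have h6 := h3' n hn'
    rw [h2'] at hn'
    obtain ⟨m, rfl, -, hm⟩ := node_eq_comb hn'
    have h7 := h5' m hm
    rw [h4', h1'] at h7
    rw [h1'] at h6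
    exact all_succ h6 h7
  · simp only [List.forall_mem_cons, List.not_mem_nil, false_implies, implies_true, and_true] at hv
    obtain ⟨h1, h2, h3, h4⟩ := hv
    intro n _
    have h1' : dec (v 1) = .nil := h1
    have h2' : runT (dec (v 0)) (dec (v 2)) = dec (v 4) := h2
    have h3' : dec (v 4) = .node (dec (v 5)) (dec (v 6)) := h3
    have h4' : dec (v 5) = .node (dec (v 7)) (dec (v 8)) := h4
    show DoneS (dec (v 0)) (dec (v 1)) (dec (v 2)) n
    rw [h1', DoneS]
    exact ⟨_, _, _, by rw [h2', h3', h4']⟩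
  · simp only [List.forall_mem_cons, List.not_mem_nil, false_implies, implies_true, and_true] at hv
    obtain ⟨h1, h2, h3, h4, h5⟩ := hv
    intro n hn
    have h1' : dec (v 4) = .nil := h1
    have h2' : dec (v 1) = .node (dec (v 4)) (dec (v 5)) := h2
    have h3' : dec (v 6) = .node (dec (v 2)) (dec (v 4)) := h3
    have h4' : dec (v 7) = .node (dec (v 6)) (dec (v 5)) := h4
    have h5' : ∀ n, dec (v 3) = comb n → AllS (dec (v 0)) (dec (v 7)) n := h5
    have hn' : dec (v 3) = comb n := hn
    show DoneS (dec (v 0)) (dec (v 1)) (dec (v 2)) n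
    rw [h2', h1', DoneS]
    intro a ha
    have h6 := h5' n hn' a ha
    rw [h4', h3', DoneS] at h6
    exact h6
  · simp only [List.forall_mem_cons, List.not_mem_nil, false_implies, implies_true, and_true] at hv
    obtain ⟨h1, h2, h3, h4⟩ := hv
    intro n hn
    have h1' : dec (v 6) = .node (dec (v 4)) (dec (v 5)) := h1
    have h2' : dec (v 1) = .node (dec (v 6)) (dec (v 7)) := h2
    have h3' : dec (v 8) = .node (dec (v 4)) (dec (v 2)) := h3
    have h4' : ∀ n, dec (v 3) = comb n → DoneS (dec (v 0)) (dec (v 7)) (dec (v 8)) n := h4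
    have hn' : dec (v 3) = comb n := hn
    show DoneS (dec (v 0)) (dec (v 1)) (dec (v 2)) n
    rw [h2', h1', DoneS, ← h3']
    exact h4' n hn'
  · simp only [List.forall_mem_cons, List.not_mem_nil, false_implies, implies_true, and_true] at hv
    obtain ⟨h1, h2⟩ := hv
    have h1' : v 0 = 0 := h1
    have h2' : dec (v 1) = .nil := h2
    show dec (v 1) = comb (v 0)
    rw [h1', h2', comb]
  · simp only [List.forall_mem_cons, List.not_mem_nil, false_implies, implies_true, and_true] at hv
    obtain ⟨h1, h2, h3, h4⟩ := hv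
    have h1' : dec (v 1) = comb (v 0) := h1
    have h2' : v 2 = v 0 + 1 := h2
    have h3' : dec (v 3) = .nil := h3
    have h4' : dec (v 4) = .node (dec (v 3)) (dec (v 1)) := h4
    show dec (v 4) = comb (v 2)
    rw [h2', comb, h4', h3', h1']
  · simp only [List.forall_mem_cons, List.not_mem_nil, false_implies, implies_true, and_true] at hv
    obtain ⟨h1, h2, h3, h4, h5⟩ := hv
    have h1' : v 0 = 0 := h1
    have h2' : ∃ Γ, dec (v 1) = encL Γ ∧ v 2 = app (v 0) (strs Γ) := h2
    have h3' : dec (v 4) = comb (v 3) := h3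
    have h4' : dec (v 5) = .nil := h4
    have h5' : ∀ n, dec (v 4) = comb n → AllS (dec (v 1)) (dec (v 5)) n := h5
    show NoRef (v 2) (v 3)
    obtain ⟨Γ, hΓ1, hΓ2⟩ := h2'
    intro Γ' hΓ' l hl
    have e1 : code Γ' = code Γ := by
      rw [hΓ', hΓ2, h1', app, code]
      rw [TH197.J1545.digits_zero, List.nil_append]
    have e2 : Γ' = Γ := TH197.J1545.code_inj e1
    rw [e2]
    have h6 := h5' (v 3) h3' l hl
    rw [h4', DoneS, hΓ1] at h6
    exact h6

end Pool.Agent.T9h46.IO
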